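import Pool.Agent.Lib.MP_b39e30_al.Rc.MRing
import Pool.Agent.Lib.MP_b39e30_al.Rc.CNil
import Pool.Agent.Lib.MP_b39e30_al.Rc.CSub

/-!
For a commutative ring `R` the following are equivalent: every ideal that is nil of bounded index
modulo an ideal is nilpotent modulo that ideal; in every group of automorphisms of a finitely
generated `R`-module each bounded left Engel element generates a subnormal subgroup; the same holds
in every locally nilpotent such group. The map `y ↦ y⁻¹ * g⁻¹ * y * g` is the commutator `[y, g]`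
of the problem file.
-/

set_option autoImplicit false

namespace Pool.Agent.Results.MP_b39e30_al.ModuleCriterion

open Pool.Agent.Lib.MP_b39e30_al.Rc

theorem result (R : Type) [CommRing R] : List.TFAE [
    ∀ a I : Ideal R, (∃ m : ℕ, ∀ x ∈ I, x ^ m ∈ a) → ∃ t : ℕ, I ^ t ≤ a,
    ∀ (M G : Type) [AddCommGroup M] [Module R M] [Module.Finite R M] [Group G]
      (ρ : G →* (M ≃ₗ[R] M)) (g : G), Function.Injective ρ →
      (∃ n : ℕ, ∀ x : G, (fun y => y⁻¹ * g⁻¹ * y * g)^[n] x = 1) →
        (Subgroup.zpowers g).IsSubnormal,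
    ∀ (M G : Type) [AddCommGroup M] [Module R M] [Module.Finite R M] [Group G]
      (ρ : G →* (M ≃ₗ[R] M)) (g : G), Function.Injective ρ →
      (∀ s : Finset G, Group.IsNilpotent (Subgroup.closure (s : Set G))) →
      (∃ n : ℕ, ∀ x : G, (fun y => y⁻¹ * g⁻¹ * y * g)^[n] x = 1) →
        (Subgroup.zpowers g).IsSubnormal] := by
  tfae_have 1 → 2 := fun h M G _ _ _ _ ρ g hρ ⟨n, hn⟩ =>
    mod_thm h (LinearEquiv.automorphismGroup.toLinearMapMonoidHom.comp ρ)
      (LinearEquiv.toLinearMap_injective.comp hρ) hn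
  tfae_have 2 → 3 := fun h M G _ _ _ _ ρ g hρ _ hn => h M G ρ g hρ hn
  tfae_have 3 → 1 := fun h a I ⟨m, hm⟩ => by
    have hm' : ∀ x ∈ I.map (Ideal.Quotient.mk a), x ^ m = 0 := fun x hx => by
      obtain ⟨y, hy, rfl⟩ := (Ideal.mem_map_iff_of_surjective _ Ideal.Quotient.mk_surjective).1 hx
      rw [← map_pow]
      exact Ideal.Quotient.eq_zero_iff_mem.2 (hm y hy)
    obtain ⟨g, hg⟩ := GI_sub (I.map (Ideal.Quotient.mk a))
    obtain ⟨n, hn⟩ := GI_eng _ hm'
    let e := (Matrix.GeneralLinearGroup.toLin (n := Fin 3) (R := R ⧸ a)).trans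
      (LinearMap.GeneralLinearGroup.generalLinearEquiv (R ⧸ a) (Fin 3 → R ⧸ a))
    let ρ : GL (Fin 3) (R ⧸ a) →* ((Fin 3 → R ⧸ a) ≃ₗ[R] (Fin 3 → R ⧸ a)) :=
      { toFun := fun x => (e x).restrictScalars R
        map_one' := by rw [map_one]; rfl
        map_mul' := fun x y => by rw [map_mul]; rfl }
    obtain ⟨t, ht⟩ := hg (h (Fin 3 → R ⧸ a) _ (ρ.comp (GI _).subtype) g
      (((LinearEquiv.restrictScalars_injective R).comp e.injective).comp Subtype.val_injective)
      (fun s => by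
        obtain ⟨c, hc⟩ := GI_lcs _ hm' s.card
        exact (Subgroup.isNilpotent_iff_lowerCentralSeries _).2 ⟨c, hc s le_rfl⟩) ⟨n, hn g⟩)
    rw [← Ideal.map_pow, Submodule.zero_eq_bot, Ideal.map_eq_bot_iff_le_ker, Ideal.mk_ker] at ht
    exact ⟨t, ht⟩
  tfae_finish

end Pool.Agent.Results.MP_b39e30_al.ModuleCriterion
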