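import Pool.Agent.Lib.MP_b39e30_al.Lc.Fm

/-!
For all `d` and `n` there is `N` such that, for every commutative ring `R`, every `R`-module `M`
with `d` generators and without `N!`-torsion and every group `G` embedded in the group of
`R`-automorphisms of `M`, a left `n`-Engel element `g` of `G` has normal closure nilpotent of class
at most `N`, and the cyclic subgroup it generates is subnormal. The map `y ↦ y⁻¹ * g⁻¹ * y * g` is
the commutator `[y, g]` of the problem file.
-/

set_option autoImplicit false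

namespace Pool.Agent.Results.MP_b39e30_al.ModuleFitting

open Pool.Agent.Lib.MP_b39e30_al.Lc Pool.Agent.Lib.MP_b39e30_al.Lin

theorem result (d n : ℕ) : ∃ N : ℕ, ∀ (R M G : Type) [CommRing R] [AddCommGroup M] [Module R M]
    [Group G] (ρ : G →* (M ≃ₗ[R] M)) (b : Fin d → M) (g : G), Function.Injective ρ →
    Submodule.span R (Set.range b) = ⊤ → (∀ v : M, N.factorial • v = 0 → v = 0) →
    (∀ x : G, (fun y => y⁻¹ * g⁻¹ * y * g)^[n] x = 1) →
      (Subgroup.normalClosure {g}).lowerCentralSeries N = ⊥ ∧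
        (Subgroup.zpowers g).IsSubnormal := by
  obtain ⟨N, hN⟩ := unifM d n
  refine ⟨N, fun R M G _ _ _ _ ρ b g hρ hb hM hg => ?_⟩
  have h0 : ∀ f, zw g f N = 1 := fun f => hρ <| by
    rw [map_one]
    exact LinearEquiv.toLinearMap_injective
      (hN R M b hb hM G (LinearEquiv.automorphismGroup.toLinearMapMonoidHom.comp ρ) g hg f)
  have h : (Subgroup.normalClosure ({g} : Set G)).lowerCentralSeries N = ⊥ :=
    le_bot_iff.1 ((lcs_le g N).trans ((Subgroup.closure_le _).2 fun _ ⟨f, hf⟩ =>
      hf.trans (h0 f)))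
  exact ⟨h, final_subnormal Subgroup.normalClosure_normal
    ((Subgroup.zpowers_le (H := Subgroup.normalClosure {g})).2
      (Subgroup.subset_normalClosure rfl)) h⟩

/-- The matrix form. -/
theorem matrix (d n : ℕ) : ∃ N : ℕ, ∀ (R G : Type) [CommRing R] [Group G]
    (ρ : G →* GL (Fin d) R) (g : G), Function.Injective ρ →
    (∀ r : R, N.factorial • r = 0 → r = 0) →
    (∀ x : G, (fun y => y⁻¹ * g⁻¹ * y * g)^[n] x = 1) →
      (Subgroup.normalClosure {g}).lowerCentralSeries N = ⊥ ∧
        (Subgroup.zpowers g).IsSubnormal := by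
  obtain ⟨N, hN⟩ := result d n
  refine ⟨N, fun R G _ _ ρ g hρ hR hg => ?_⟩
  let e := (Matrix.GeneralLinearGroup.toLin (n := Fin d) (R := R)).trans
    (LinearMap.GeneralLinearGroup.generalLinearEquiv R (Fin d → R))
  exact hN R (Fin d → R) G (e.toMonoidHom.comp ρ) (Pi.basisFun R (Fin d)) g (e.injective.comp hρ)
    (Pi.basisFun R (Fin d)).span_eq (fun v hv => funext fun i => hR _ (congrFun hv i)) hg

/-- The torsion-free case, for all bounded left Engel elements. -/
theorem torsionFree (R M : Type) [CommRing R] [AddCommGroup M] [Module R M] [Module.Finite R M]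
    [IsAddTorsionFree M] (G : Subgroup (M ≃ₗ[R] M)) (g : G)
    (hE : ∃ n : ℕ, ∀ x : G, (fun y => y⁻¹ * g⁻¹ * y * g)^[n] x = 1) :
    Group.IsNilpotent (Subgroup.normalClosure ({g} : Set G)) ∧ (Subgroup.zpowers g).IsSubnormal := by
  obtain ⟨n, hn⟩ := hE
  obtain ⟨d, b, hb⟩ := Module.Finite.exists_fin (R := R) (M := M)
  obtain ⟨N, hN⟩ := result d n
  obtain ⟨h1, h2⟩ := hN R M G G.subtype b g Subtype.val_injective hb
    (fun v hv => (nsmul_eq_zero_iff_right N.factorial_ne_zero).1 hv) hn
  exact ⟨(Subgroup.isNilpotent_iff_lowerCentralSeries _).2 ⟨N, h1⟩, h2⟩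

end Pool.Agent.Results.MP_b39e30_al.ModuleFitting
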