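import Pool.Agent.Lib.MP_b39e30_al.Rc.Ring
import Pool.Agent.Lib.MP_b39e30_al.Rc.CNil
import Pool.Agent.Lib.MP_b39e30_al.Rc.CSub

/-!
For a commutative ring `R` the following are equivalent: every ideal that is nil of bounded index
is nilpotent; in every linear group over `R` each bounded left Engel element generates a subnormal
subgroup; the same holds in every locally nilpotent linear group over `R`. The map
`y ↦ y⁻¹ * g⁻¹ * y * g` is the commutator `[y, g]` of the problem file.
-/

set_option autoImplicit false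

namespace Pool.Agent.Results.MP_b39e30_al.RingCriterion

open Pool.Agent.Lib.MP_b39e30_al.Rc

theorem result (R : Type) [CommRing R] : List.TFAE [
    ∀ I : Ideal R, (∃ m : ℕ, ∀ a ∈ I, a ^ m = 0) → IsNilpotent I,
    ∀ (d : ℕ) (G : Type) [Group G] (ρ : G →* GL (Fin d) R) (g : G), Function.Injective ρ →
      (∃ n : ℕ, ∀ x : G, (fun y => y⁻¹ * g⁻¹ * y * g)^[n] x = 1) →
        (Subgroup.zpowers g).IsSubnormal,
    ∀ (d : ℕ) (G : Type) [Group G] (ρ : G →* GL (Fin d) R) (g : G), Function.Injective ρ →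
      (∀ s : Finset G, Group.IsNilpotent (Subgroup.closure (s : Set G))) →
      (∃ n : ℕ, ∀ x : G, (fun y => y⁻¹ * g⁻¹ * y * g)^[n] x = 1) →
        (Subgroup.zpowers g).IsSubnormal] := by
  tfae_have 1 → 2 := fun h d G _ ρ g hρ ⟨n, hn⟩ =>
    ring_thm h ((Units.coeHom _).comp ρ) (Units.val_injective.comp hρ) hn
  tfae_have 2 → 3 := fun h d G _ ρ g hρ _ hn => h d G ρ g hρ hn
  tfae_have 3 → 1 := fun h I ⟨m, hm⟩ => by
    obtain ⟨g, hg⟩ := GI_sub I
    obtain ⟨n, hn⟩ := GI_eng I hm
    refine hg (h 3 (GI I) (GI I).subtype g Subtype.val_injective (fun s => ?_) ⟨n, hn g⟩)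
    obtain ⟨c, hc⟩ := GI_lcs I hm s.card
    exact (Subgroup.isNilpotent_iff_lowerCentralSeries _).2 ⟨c, hc s le_rfl⟩
  tfae_finish

end Pool.Agent.Results.MP_b39e30_al.RingCriterion
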