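import Pool.Agent.Lib.MP_b39e30_al.Gr.Baer
import Pool.Agent.Lib.MP_b39e30_al.Gr.Engel

/-!
Locally nilpotent groups with trivial Baer radical in which every element is a bounded left Engel
element and which are generated by left 3-Engel elements: a torsion-free one for `p = 0` and a
`p`-group for every prime `p`. The group is generated by the
automorphisms `1 + c ∂ᵢ` of the Grassmann algebra on countably many generators over a field of
characteristic `p`, where `c` is an odd product with three linear factors. The map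
`y ↦ y⁻¹ * x⁻¹ * y * x` is the commutator `[y, x]` of the problem file.
-/

namespace Pool.Agent.Results.MP_b39e30_al.TorsionFree

open Pool.Agent.Lib.MP_b39e30_al.Gr

theorem result (p : ℕ) (hp : p = 0 ∨ p.Prime) :
    ∃ (G : Type) (_ : Group G), Nontrivial G ∧
      (p = 0 → ∀ g : G, IsOfFinOrder g → g = 1) ∧ (p ≠ 0 → IsPGroup p G) ∧
      (∀ F : Finset G, Group.IsNilpotent (Subgroup.closure (F : Set G))) ∧
      (∀ g : G, (∀ n : ℕ, g ∈ (⊤ : Subgroup G).lowerCentralSeries n) → g = 1) ∧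
      (∀ x : G, ∃ n : ℕ, ∀ g : G, (fun y => y⁻¹ * x⁻¹ * y * x)^[n] g = 1) ∧
      Subgroup.closure {x : G | ∀ g : G, (fun y => y⁻¹ * x⁻¹ * y * x)^[3] g = 1} = ⊤ ∧
      ∀ g : G, (Subgroup.zpowers g).IsSubnormal → g = 1 := by
  have main : ∀ (𝕜 : Type) [Field 𝕜] [CharP 𝕜 p], ∃ (G : Type) (_ : Group G), Nontrivial G ∧
      (p = 0 → ∀ g : G, IsOfFinOrder g → g = 1) ∧ (p ≠ 0 → IsPGroup p G) ∧
      (∀ F : Finset G, Group.IsNilpotent (Subgroup.closure (F : Set G))) ∧
      (∀ g : G, (∀ n : ℕ, g ∈ (⊤ : Subgroup G).lowerCentralSeries n) → g = 1) ∧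
      (∀ x : G, ∃ n : ℕ, ∀ g : G, (fun y => y⁻¹ * x⁻¹ * y * x)^[n] g = 1) ∧
      Subgroup.closure {x : G | ∀ g : G, (fun y => y⁻¹ * x⁻¹ * y * x)^[3] g = 1} = ⊤ ∧
      ∀ g : G, (Subgroup.zpowers g).IsSubnormal → g = 1 := by
    intro 𝕜 _ _
    refine ⟨G 𝕜, inferInstance, nontrivial_G, ?_, fun _ => isPGroup (CharP.cast_eq_zero 𝕜 p),
      loc_nil, res_nil, fun x => ?_, ?_, baer_trivial⟩
    · rintro rfl g hg
      obtain ⟨n, hn, h⟩ := isOfFinOrder_iff_pow_eq_one.1 hg
      have : CharZero 𝕜 := CharP.charP_to_charZero 𝕜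
      exact Subtype.ext (torsion_free g.2 (Nat.cast_ne_zero.2 hn.ne')
        (congrArg Subtype.val h))
    · obtain ⟨n, hn⟩ := all_engel x.2
      refine ⟨n, fun g => Subtype.ext (Eq.trans ?_ (hn g g.2))⟩
      exact Function.Semiconj.iterate_right (f := Subtype.val) (fun _ => rfl) n g
    · refine eq_top_iff.2 ((Subgroup.closure_closure_coe_preimage (k := Gen)).ge.trans
        (Subgroup.closure_mono fun x hx g => Subtype.ext ?_))
      exact gen_engel hx (G_le_Aut g.2)
  rcases hp with rfl | hp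
  · exact main ℚ
  · have := Fact.mk hp
    exact main (ZMod p)

end Pool.Agent.Results.MP_b39e30_al.TorsionFree
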